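import Pool.Agent.H47.LU.SAL

/-!
# MP_812e67_ag: module CLO (the jet of the germ is in the closure)
-/

set_option autoImplicit false

namespace Pool.Agent.H47.LU

open Pool.Agent.H15.LU Filter Topology Asymptotics

theorem continuous_famJet (k : ℕ) (hk : 7 ≤ k) : Continuous fun c : ℂ => famJet k 0 c := by
  classical
  refine continuous_pi fun m => ?_
  simp only [famJet_eq k hk]
  by_cases h : m = ic k hk
  · simp only [h, if_true]
    fun_prop
  · simp only [h, if_false]
    fun_prop

theorem fam_zero : fam 0 0 = f₀ := by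
  funext p
  simp [fam, f₀]

theorem clo (h1 : T_FJG) : T_CLO := by
  intro k hk
  constructor
  · have ht : Tendsto (fun n : ℕ => (((1 / 100 : ℝ) * (1 / ((n : ℝ) + 2)) : ℝ) : ℂ)) atTop
        (𝓝 0) := by
      have h2 : Tendsto (fun n : ℕ => (1 / 100 : ℝ) * (1 / ((n : ℝ) + 2))) atTop (𝓝 0) := by
        have h3 : Tendsto (fun n : ℕ => 1 / ((n : ℝ) + 2)) atTop (𝓝 0) := by
          refine Tendsto.congr (fun n => ?_)
            ((tendsto_one_div_add_atTop_nhds_zero_nat (𝕜 := ℝ)).comp (tendsto_add_atTop_nat 1))
          simp only [Function.comp]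
          push_cast
          ring_nf
        simpa using h3.const_mul (1 / 100 : ℝ)
      have h4 := (Complex.continuous_ofReal.tendsto 0).comp h2
      rw [Complex.ofReal_zero] at h4
      exact h4
    have ht' := ((continuous_famJet k hk).tendsto 0).comp ht
    refine mem_closure_of_tendsto ht' (Eventually.of_forall fun n => ?_)
    have hp : 0 < 1 / ((n : ℝ) + 2) := by positivity
    have hl : 1 / ((n : ℝ) + 2) < 1 := by
      rw [div_lt_one (by positivity)]
      have : (0 : ℝ) ≤ n := Nat.cast_nonneg n
      linarith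
    refine ⟨0, _, ⟨by simp, ?_⟩, ?_, rfl⟩
    · rw [Complex.norm_real, Real.norm_eq_abs, abs_of_pos (by positivity)]
      linarith
    · unfold Sector
      rw [Complex.ofReal_im, Complex.ofReal_re, abs_zero]
      positivity
  · unfold IsJet
    rw [h1 k 0 0 hk, fam_zero]
    simp only [sub_self]
    exact isBigO_zero _ _

end Pool.Agent.H47.LU
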