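import Pool.Agent.H15.LU.Targets

/-!
# MP_812e67_ag: module FJG (the germ of the family of jets)
-/

set_option autoImplicit false

namespace Pool.Agent.H47.LU

open Pool.Agent.H15.LU Filter Topology Asymptotics

/-- an exponent of degree between `1` and `7` -/
def ex (k : ℕ) (hk : 7 ≤ k) (v : Fin 3 → ℕ) (hv : 0 < ∑ i, v i ∧ ∑ i, v i ≤ 7) : Exps 3 k :=
  ⟨v, hv.1, hv.2.trans hk⟩

def i1 (k : ℕ) (hk : 7 ≤ k) : Exps 3 k := ex k hk ![0, 1, 2] (by simp [Fin.sum_univ_three])
def i2 (k : ℕ) (hk : 7 ≤ k) : Exps 3 k := ex k hk ![2, 0, 1] (by simp [Fin.sum_univ_three])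
def i3 (k : ℕ) (hk : 7 ≤ k) : Exps 3 k := ex k hk ![1, 5, 0] (by simp [Fin.sum_univ_three])
def ia (k : ℕ) (hk : 7 ≤ k) : Exps 3 k := ex k hk ![2, 3, 0] (by simp [Fin.sum_univ_three])
def ic (k : ℕ) (hk : 7 ≤ k) : Exps 3 k := ex k hk ![0, 7, 0] (by simp [Fin.sum_univ_three])

open Classical in
theorem famJet_eq (k : ℕ) (hk : 7 ≤ k) (a c : ℂ) (m : Exps 3 k) :
    famJet k a c m = (if m = i1 k hk then 1 else 0) + (if m = i2 k hk then 1 else 0) +
      (if m = i3 k hk then 1 else 0) + (if m = ia k hk then a else 0) +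
      (if m = ic k hk then c else 0) := by
  simp only [famJet, Subtype.ext_iff, i1, i2, i3, ia, ic, ex]
  by_cases h1 : m.1 = ![0, 1, 2]
  · simp [h1]
  · by_cases h2 : m.1 = ![2, 0, 1]
    · simp [h2]
    · by_cases h3 : m.1 = ![1, 5, 0]
      · simp [h3]
      · by_cases h4 : m.1 = ![2, 3, 0]
        · simp [h4]
        · by_cases h5 : m.1 = ![0, 7, 0]
          · simp [h5]
          · simp [h1, h2, h3, h4, h5]

theorem fjg : T_FJG := by
  intro k a c hk
  classical
  funext p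
  simp only [Jet.germ, famJet_eq k hk, add_mul, Finset.sum_add_distrib, ite_mul, zero_mul,
    Finset.sum_ite_eq', Finset.mem_univ, if_true]
  simp only [Fin.prod_univ_three, i1, i2, i3, ia, ic, ex, fam]
  simp
  ring

end Pool.Agent.H47.LU
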