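import Pool.Agent.H15.LU.Targets

/-!
# MP_812e67_ag: module ISO (the germ has an isolated singularity)
-/

set_option autoImplicit false

namespace Pool.Agent.H47.LU.ISO

open Pool.Agent.H15.LU Filter Topology Asymptotics

theorem fam_zero : fam 0 0 = f₀ := by
  funext p
  simp [fam, f₀]

theorem iso (h1 : T_GRD) (h2 : T_CRT) : T_ISO := by
  have hf : ∀ p, fderiv ℂ f₀ p = grad 0 0 p := by
    intro p
    rw [← fam_zero]
    exact (h1 0 0 p).fderiv
  have hc : ∀ i : Fin 3, AnalyticAt ℂ (fun p : Fin 3 → ℂ => p i) 0 := fun i =>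
    (ContinuousLinearMap.proj (R := ℂ) (φ := fun _ : Fin 3 => ℂ) i).analyticAt 0
  refine ⟨?_, ?_, ?_, ?_⟩
  · unfold f₀
    exact (((hc 1).mul ((hc 2).pow 2)).add (((hc 0).pow 2).mul (hc 2))).add
      ((hc 0).mul ((hc 1).pow 5))
  · simp [f₀]
  · rw [hf]
    ext v
    simp [grad, dx, dy, dz]
  · refine Eventually.of_forall fun p hp => ?_
    rw [hf] at hp
    have g : ∀ v : Fin 3 → ℂ, dx 0 p * v 0 + dy 0 0 p * v 1 + dz p * v 2 = 0 := by
      intro v
      have := congrArg (fun L : (Fin 3 → ℂ) →L[ℂ] ℂ => L v) hp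
      simpa [grad] using this
    have hs : Small 0 0 := by constructor <;> simp
    refine h2 0 0 p hs ?_ ?_ ?_
    · simpa using g (Pi.single 0 1)
    · simpa using g (Pi.single 1 1)
    · simpa using g (Pi.single 2 1)

end Pool.Agent.H47.LU.ISO
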