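import Pool.Agent.H47.LU.SDM

/-!
# MP_812e67_ag: module LMD (the Lipschitz modality of the germ is at least two)
-/

set_option autoImplicit false

namespace Pool.Agent.H47.LU

open Pool.Agent.H15.LU Filter Topology Asymptotics

theorem lmd (h1 : T_NEQ) (h2 : T_FJG) (h3 : T_SAL) (h4 : T_SDM) (h5 : T_CLO) : T_LMD := by
  intro k hk
  have hb : BddAbove {d | ∃ S : Set (Jet 3 k), SemiAlg S ∧ (∃ c ∈ closure S, IsJet f₀ c) ∧
      (∀ a ∈ S, ∀ b ∈ S, a ≠ b → ¬ LipEquiv a.germ b.germ) ∧ saDim S = d} := by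
    refine ⟨Fintype.card (Exps 3 k × Bool), ?_⟩
    rintro d ⟨S, -, -, -, rfl⟩
    exact csSup_le' (saDim_bdd S)
  have hm : saDim (SJ k) ≤ lipDim k f₀ := by
    refine le_csSup hb ⟨SJ k, h3 k hk, ⟨_, (h5 k hk).1, (h5 k hk).2⟩, ?_, rfl⟩
    rintro j ⟨a, c, hs, hc, rfl⟩ j' ⟨a', c', hs', hc', rfl⟩ hne hl
    rw [h2 k a c hk, h2 k a' c' hk] at hl
    obtain ⟨ha, hc⟩ := h1 a c a' c' hs hs' hc hc' hl
    exact hne (by rw [ha, hc])
  have h6 := h4 k hk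
  unfold Lmod
  omega

end Pool.Agent.H47.LU
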