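import Pool.Agent.H47.LU.FJG

/-!
# MP_812e67_ag: module SAL (the set of jets is semialgebraic)
-/

set_option autoImplicit false

namespace Pool.Agent.H47.LU

open Pool.Agent.H15.LU Filter Topology Asymptotics

theorem sa_inter {ι : Type} {S T : Set (ι → ℂ)} (hS : SemiAlg S) (hT : SemiAlg T) :
    SemiAlg (S ∩ T) := by
  have h := (SemiAlg.union hS.compl hT.compl).compl
  have e : (Sᶜ ∪ Tᶜ)ᶜ = S ∩ T := by
    rw [Set.compl_union, compl_compl, compl_compl]
  rwa [e] at h

theorem sa_univ {ι : Type} : SemiAlg (Set.univ : Set (ι → ℂ)) := by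
  have h := SemiAlg.pos (ι := ι) 1
  have e : {c : ι → ℂ | 0 < MvPolynomial.eval (coord c) (1 : MvPolynomial (ι × Bool) ℝ)} =
      Set.univ := by
    ext c
    simp
  rwa [e] at h

theorem sa_zero {ι : Type} (P : MvPolynomial (ι × Bool) ℝ) :
    SemiAlg {c : ι → ℂ | MvPolynomial.eval (coord c) P = 0} := by
  have h := sa_inter (SemiAlg.pos P).compl (SemiAlg.pos (-P)).compl
  have e : {c : ι → ℂ | 0 < MvPolynomial.eval (coord c) P}ᶜ ∩
      {c : ι → ℂ | 0 < MvPolynomial.eval (coord c) (-P)}ᶜ =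
      {c : ι → ℂ | MvPolynomial.eval (coord c) P = 0} := by
    ext c
    simp only [Set.mem_inter_iff, Set.mem_compl_iff, Set.mem_setOf_eq, map_neg, not_lt]
    constructor
    · rintro ⟨h1, h2⟩
      linarith
    · intro h
      rw [h]
      simp
  rwa [e] at h

theorem sa_biInter {ι α : Type} (F : Finset α) (S : α → Set (ι → ℂ))
    (h : ∀ a ∈ F, SemiAlg (S a)) : SemiAlg (⋂ a ∈ F, S a) := by
  classical
  induction F using Finset.induction_on with
  | empty => simpa using sa_univ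
  | insert a F ha ih =>
    have e : (⋂ b ∈ insert a F, S b) = S a ∩ ⋂ b ∈ F, S b := by
      ext c
      simp
    rw [e]
    exact sa_inter (h a (Finset.mem_insert_self a F))
      (ih fun b hb => h b (Finset.mem_insert_of_mem hb))

theorem sa_val {ι : Type} (i : ι) (v : ℂ) : SemiAlg {c : ι → ℂ | c i = v} := by
  have h := sa_inter (sa_zero (MvPolynomial.X (i, false) - MvPolynomial.C v.re))
    (sa_zero (MvPolynomial.X (i, true) - MvPolynomial.C v.im))
  have e : {c : ι → ℂ | MvPolynomial.eval (coord c)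
        (MvPolynomial.X (i, false) - MvPolynomial.C v.re) = 0} ∩
      {c : ι → ℂ | MvPolynomial.eval (coord c)
        (MvPolynomial.X (i, true) - MvPolynomial.C v.im) = 0} = {c : ι → ℂ | c i = v} := by
    ext c
    simp only [Set.mem_inter_iff, Set.mem_setOf_eq, map_sub, MvPolynomial.eval_X,
      MvPolynomial.eval_C, coord, sub_eq_zero, Complex.ext_iff]
    simp
  rwa [e] at h

theorem norm_lt_iff (z : ℂ) : ‖z‖ < 1 / 100 ↔ 0 < 1 / 10000 - z.re ^ 2 - z.im ^ 2 := by
  have h : ‖z‖ ^ 2 = z.re ^ 2 + z.im ^ 2 := by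
    rw [← Complex.normSq_eq_norm_sq, Complex.normSq_apply]
    ring
  have h0 := norm_nonneg z
  constructor
  · intro h1
    nlinarith
  · intro h1
    nlinarith

theorem sa_norm {ι : Type} (i : ι) : SemiAlg {c : ι → ℂ | ‖c i‖ < 1 / 100} := by
  have h := SemiAlg.pos (ι := ι) (MvPolynomial.C (1 / 10000) - MvPolynomial.X (i, false) ^ 2 -
    MvPolynomial.X (i, true) ^ 2)
  have e : {c : ι → ℂ | 0 < MvPolynomial.eval (coord c) (MvPolynomial.C (1 / 10000) -
      MvPolynomial.X (i, false) ^ 2 - MvPolynomial.X (i, true) ^ 2)} =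
      {c : ι → ℂ | ‖c i‖ < 1 / 100} := by
    ext c
    simp only [Set.mem_setOf_eq, map_sub, map_pow, MvPolynomial.eval_X,
      MvPolynomial.eval_C, coord]
    rw [norm_lt_iff]
    simp
  rwa [e] at h

theorem sa_sector {ι : Type} (i : ι) : SemiAlg {c : ι → ℂ | Sector (c i)} := by
  have h := sa_inter
    (SemiAlg.pos (ι := ι) (MvPolynomial.X (i, false) - MvPolynomial.X (i, true)))
    (SemiAlg.pos (ι := ι) (MvPolynomial.X (i, false) + MvPolynomial.X (i, true)))
  have e : {c : ι → ℂ | 0 < MvPolynomial.eval (coord c)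
        (MvPolynomial.X (i, false) - MvPolynomial.X (i, true))} ∩
      {c : ι → ℂ | 0 < MvPolynomial.eval (coord c)
        (MvPolynomial.X (i, false) + MvPolynomial.X (i, true))} =
      {c : ι → ℂ | Sector (c i)} := by
    ext c
    simp only [Set.mem_inter_iff, Set.mem_setOf_eq, map_sub, map_add, MvPolynomial.eval_X,
      coord, Sector, abs_lt]
    simp only [Bool.false_eq_true, if_true, if_false]
    constructor
    · rintro ⟨h1, h2⟩
      constructor <;> linarith
    · rintro ⟨h1, h2⟩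
      constructor <;> linarith
  rwa [e] at h

theorem ia_ne_ic (k : ℕ) (hk : 7 ≤ k) : ia k hk ≠ ic k hk := by
  intro h
  have h' := congrArg Subtype.val h
  simp [ia, ic, ex] at h'

theorem i1_ne_ia (k : ℕ) (hk : 7 ≤ k) : i1 k hk ≠ ia k hk := by
  intro h
  have h' := congrArg Subtype.val h
  simp [i1, ia, ex] at h'

theorem i2_ne_ia (k : ℕ) (hk : 7 ≤ k) : i2 k hk ≠ ia k hk := by
  intro h
  have h' := congrArg Subtype.val h
  simp [i2, ia, ex] at h'

theorem i3_ne_ia (k : ℕ) (hk : 7 ≤ k) : i3 k hk ≠ ia k hk := by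
  intro h
  have h' := congrArg Subtype.val h
  simp [i3, ia, ex] at h'

theorem i1_ne_ic (k : ℕ) (hk : 7 ≤ k) : i1 k hk ≠ ic k hk := by
  intro h
  have h' := congrArg Subtype.val h
  simp [i1, ic, ex] at h'

theorem i2_ne_ic (k : ℕ) (hk : 7 ≤ k) : i2 k hk ≠ ic k hk := by
  intro h
  have h' := congrArg Subtype.val h
  simp [i2, ic, ex] at h'

theorem i3_ne_ic (k : ℕ) (hk : 7 ≤ k) : i3 k hk ≠ ic k hk := by
  intro h
  have h' := congrArg Subtype.val h
  simp [i3, ic, ex] at h'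

theorem famJet_ia (k : ℕ) (hk : 7 ≤ k) (a c : ℂ) : famJet k a c (ia k hk) = a := by
  classical
  rw [famJet_eq k hk, if_neg (i1_ne_ia k hk).symm, if_neg (i2_ne_ia k hk).symm,
    if_neg (i3_ne_ia k hk).symm, if_pos rfl, if_neg (ia_ne_ic k hk)]
  ring

theorem famJet_ic (k : ℕ) (hk : 7 ≤ k) (a c : ℂ) : famJet k a c (ic k hk) = c := by
  classical
  rw [famJet_eq k hk, if_neg (i1_ne_ic k hk).symm, if_neg (i2_ne_ic k hk).symm,
    if_neg (i3_ne_ic k hk).symm, if_neg (ia_ne_ic k hk).symm, if_pos rfl]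
  ring

theorem famJet_other (k : ℕ) (hk : 7 ≤ k) (a c : ℂ) (m : Exps 3 k) (h1 : m ≠ ia k hk)
    (h2 : m ≠ ic k hk) : famJet k a c m = famJet k 0 0 m := by
  classical
  rw [famJet_eq k hk, famJet_eq k hk, if_neg h1, if_neg h2, if_neg h1, if_neg h2]

open Classical in
theorem SJ_eq (k : ℕ) (hk : 7 ≤ k) : SJ k =
    (⋂ m ∈ (Finset.univ.filter fun m : Exps 3 k => m ≠ ia k hk ∧ m ≠ ic k hk),
      {j : Jet 3 k | j m = famJet k 0 0 m}) ∩
    ({j : Jet 3 k | ‖j (ia k hk)‖ < 1 / 100} ∩ ({j : Jet 3 k | ‖j (ic k hk)‖ < 1 / 100} ∩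
      {j : Jet 3 k | Sector (j (ic k hk))})) := by
  ext j
  simp only [SJ, Set.mem_setOf_eq, Set.mem_inter_iff, Set.mem_iInter, Finset.mem_filter,
    Finset.mem_univ, true_and]
  constructor
  · rintro ⟨a, c, h1, h2, rfl⟩
    refine ⟨fun m hm => famJet_other k hk a c m hm.1 hm.2, ?_, ?_, ?_⟩
    · rw [famJet_ia]; exact h1.1
    · rw [famJet_ic]; exact h1.2
    · rw [famJet_ic]; exact h2
  · rintro ⟨h, h1, h2, h3⟩
    refine ⟨j (ia k hk), j (ic k hk), ⟨h1, h2⟩, h3, ?_⟩
    funext m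
    by_cases ha : m = ia k hk
    · rw [ha, famJet_ia]
    · by_cases hc : m = ic k hk
      · rw [hc, famJet_ic]
      · rw [famJet_other k hk _ _ m ha hc]
        exact h m ⟨ha, hc⟩

theorem sal : T_SAL := by
  intro k hk
  classical
  rw [SJ_eq k hk]
  exact sa_inter (sa_biInter _ _ fun m _ => sa_val m _)
    (sa_inter (sa_norm _) (sa_inter (sa_norm _) (sa_sector _)))

end Pool.Agent.H47.LU
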