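import Pool.Agent.H47.LU.SAL

/-!
# MP_812e67_ag: module SDM (the set of jets has dimension at least four)
-/

set_option autoImplicit false

namespace Pool.Agent.H47.LU

open Pool.Agent.H15.LU Filter Topology Asymptotics

theorem saDim_bdd {k : ℕ} (S : Set (Jet 3 k)) :
    ∀ d ∈ {d | ∃ e : Fin d ↪ Exps 3 k × Bool,
      (interior ((fun c i => coord c (e i)) '' S)).Nonempty},
      d ≤ Fintype.card (Exps 3 k × Bool) := by
  rintro d ⟨e, -⟩
  simpa using Fintype.card_le_of_embedding e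

/-- the four coordinates -/
def e4 (k : ℕ) (hk : 7 ≤ k) : Fin 4 ↪ Exps 3 k × Bool where
  toFun := ![(ia k hk, false), (ia k hk, true), (ic k hk, false), (ic k hk, true)]
  inj' := by
    have h := ia_ne_ic k hk
    intro i j hij
    fin_cases i <;> fin_cases j <;> simp_all [h.symm]

theorem sdm : T_SDM := by
  intro k hk
  unfold saDim
  refine le_csSup ⟨_, saDim_bdd _⟩ ?_
  refine ⟨e4 k hk, ![0, 0, 1 / 500, 0], ?_⟩
  rw [mem_interior_iff_mem_nhds]
  refine mem_of_superset (Metric.ball_mem_nhds _ (show (0 : ℝ) < 1 / 1000 by norm_num)) ?_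
  intro r hr
  rw [Metric.mem_ball, dist_pi_lt_iff (by norm_num)] at hr
  have h0 := hr 0
  have h1 := hr 1
  have h2 := hr 2
  have h3 := hr 3
  simp only [Real.dist_eq, abs_lt] at h0 h1 h2 h3
  simp at h0 h1 h2 h3
  obtain ⟨a0, b0⟩ := h0
  obtain ⟨a1, b1⟩ := h1
  obtain ⟨a2, b2⟩ := h2
  obtain ⟨a3, b3⟩ := h3
  refine ⟨famJet k (⟨r 0, r 1⟩ : ℂ) (⟨r 2, r 3⟩ : ℂ), ⟨_, _, ⟨?_, ?_⟩, ?_, rfl⟩, ?_⟩
  · rw [norm_lt_iff]
    simp only
    norm_num at a0 b0 a1 b1 ⊢
    nlinarith
  · rw [norm_lt_iff]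
    simp only
    norm_num at a2 b2 a3 b3 ⊢
    nlinarith
  · unfold Sector
    simp only [abs_lt]
    norm_num at a2 b2 a3 b3 ⊢
    constructor <;> linarith
  · funext i
    fin_cases i
    · change coord _ (ia k hk, false) = r 0
      simp [coord, famJet_ia]
    · change coord _ (ia k hk, true) = r 1
      simp [coord, famJet_ia]
    · change coord _ (ic k hk, false) = r 2
      simp [coord, famJet_ic]
    · change coord _ (ic k hk, true) = r 3
      simp [coord, famJet_ic]

end Pool.Agent.H47.LU
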